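import Pool.Agent.MP_5f72fe_nt.H3.SpecC

/-! The seed of the forms of square discriminant: convergence and Fourier expansion. -/

namespace Pool.Agent.MP_5f72fe_nt.H59

open Complex Filter Topology Set H3
open scoped Real NumberTheorySymbols

theorem norm_jac_le (a : ℤ) (N : ℕ) : ‖(J(a | N) : ℂ)‖ ≤ 1 := by
  rcases jacobiSym.trichotomy a N with h | h | h <;> simp [h]

theorem norm_qterm (hJ : RowJH) (m t j : ℕ) (z : ℂ) :
    ‖(j : ℂ) ^ m * E (j * t * z)‖ = (j : ℝ) ^ m * Real.exp (-(2 * π * (t * z.im))) ^ j := by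
  rw [norm_mul, hJ.norm, ← Real.exp_nat_mul]
  simp only [norm_pow, Complex.norm_natCast, mul_im, mul_re, natCast_re, natCast_im]
  congr 2
  ring

theorem summ_qterm (hJ : RowJH) (m : ℕ) {t : ℕ} (ht : 1 ≤ t) {z : ℂ} (hz : 0 < z.im) :
    Summable fun j : ℕ => ‖(j : ℂ) ^ m * E (j * t * z)‖ := by
  simp only [norm_qterm hJ]
  refine summable_pow_mul_geometric_of_norm_lt_one m ?_
  rw [Real.norm_of_nonneg (Real.exp_pos _).le, Real.exp_lt_one_iff, neg_lt_zero]
  have : (0 : ℝ) < t := by exact_mod_cast ht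
  positivity

theorem lip_nat (hJ : RowJH) (hL : RowLIP) {k : ℕ} (hk : 2 ≤ k) {τ : ℂ} (hτ : 0 < τ.im) :
    HasSum (fun j : ℕ => cL k * (j : ℂ) ^ (k - 1) * E (j * τ)) (∑' l : ℤ, 1 / (τ + l) ^ k) := by
  have h := hL.sum k 0 τ (by exact_mod_cast hk) hτ
  have h0 : E 0 = 1 := by simpa using hJ.int 0
  have h1 : ∀ l : ℤ, E (-(((0 : ℝ) : ℂ) * l)) * (τ + l) ^ (-((k : ℝ) : ℂ)) = 1 / (τ + l) ^ k := by
    intro l
    simp [h0, cpow_neg]
  simp only [h1] at h
  rw [← (Nat.cast_injective (R := ℤ)).hasSum_iff] at h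
  · have h3 : ((fun r : ℤ => if 0 < (r : ℝ) + 0 then cL k * ((((r : ℝ) + 0) ^ ((k : ℝ) - 1) : ℝ) : ℂ) *
        E ((r + ((0 : ℝ) : ℂ)) * τ) else 0) ∘ (Nat.cast : ℕ → ℤ)) =
        fun j : ℕ => cL k * (j : ℂ) ^ (k - 1) * E (j * τ) := by
      funext j
      simp only [Function.comp_apply, Int.cast_natCast, add_zero, ofReal_zero]
      split_ifs with hj
      · rw [show (k : ℝ) - 1 = ((k - 1 : ℕ) : ℝ) by rw [Nat.cast_sub (by omega)]; simp,
          Real.rpow_natCast]
        push_cast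
        rfl
      · have : j = 0 := by
          by_contra h4
          exact hj (by exact_mod_cast Nat.pos_of_ne_zero h4)
        subst this
        rw [Nat.cast_zero, zero_pow (by omega)]
        simp
    rw [h3] at h
    exact h
  · intro r hr
    rw [if_neg]
    intro h2
    have : 0 < r := by exact_mod_cast (by simpa using h2 : (0 : ℝ) < r)
    exact hr ⟨r.toNat, by omega⟩

theorem rowPHI : OfPHI := by
  intro hJ hG hL N k t hA ht
  obtain ⟨hk, hsq, hN4⟩ := hA
  have hN0 : N ≠ 0 := hsq.ne_zero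
  have hodd : Odd N := by rw [Nat.odd_iff]; omega
  have hNc : (N : ℂ) ≠ 0 := by exact_mod_cast hN0
  have hNr : (0 : ℝ) < N := by exact_mod_cast Nat.pos_of_ne_zero hN0
  have htr : (0 : ℝ) < t := by exact_mod_cast ht
  have hS : ∀ z : ℂ, 0 < z.im → Summable fun c : ℤ => 1 / ‖(N * t * z + c : ℂ)‖ ^ k := by
    intro z hz
    have h1 := (hL.abs k (N * t * z) (by exact_mod_cast (by omega : 2 ≤ k))
      (by simp only [mul_im, mul_re, natCast_re, natCast_im]; simp; positivity)).1
    refine h1.congr fun c => ?_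
    rw [Real.rpow_neg (norm_nonneg _), Real.rpow_natCast, one_div]
  have hB : ∀ (z : ℂ) (c : ℤ), ‖(J(c | N) : ℂ) / (N * t * z + c) ^ k‖ ≤
      1 / ‖(N * t * z + c : ℂ)‖ ^ k := by
    intro z c
    rw [norm_div, norm_pow]
    exact div_le_div_of_nonneg_right (norm_jac_le c N) (by positivity)
  have hF : ∀ z : ℂ, 0 < z.im → phi N k t z =
      cL k * GS N / N ^ k * ∑' j : ℕ, (J(j | N) : ℂ) * j ^ (k - 1) * E (j * t * z) := by
    intro z hz
    have : NeZero N := ⟨hN0⟩
    have hs : Summable fun c : ℤ => (J(c | N) : ℂ) / (N * t * z + c) ^ k :=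
      (hS z hz).of_norm_bounded (hB z)
    let e : Fin N × ℤ ≃ ℤ := (Equiv.prodComm _ _).trans (Int.divModEquiv N).symm
    have he : ∀ p : Fin N × ℤ, e p = p.2 * N + (p.1 : ℕ) := fun p => rfl
    have h1 : ∀ r : Fin N, HasSum (fun j : ℕ => (J((r : ℕ) | N) : ℂ) / N ^ k *
        (cL k * (j : ℂ) ^ (k - 1) * E (j * (t * z + (r : ℕ) / N))))
        (∑' q : ℤ, (J(e (r, q) | N) : ℂ) / (N * t * z + (e (r, q) : ℤ)) ^ k) := by
      intro r
      have h2 := (lip_nat hJ hL (k := k) (by omega) (τ := t * z + (r : ℕ) / N) (by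
        have : ((((r : ℕ) : ℂ)) / N).im = 0 := by
          rw [← ofReal_natCast, ← ofReal_natCast, ← ofReal_div, ofReal_im]
        rw [add_im, this]
        simp only [mul_im, natCast_re, natCast_im, zero_mul, add_zero]
        positivity)).mul_left ((J((r : ℕ) | N) : ℂ) / N ^ k)
      rw [← tsum_mul_left] at h2
      have h3 : ∀ q : ℤ, (J((r : ℕ) | N) : ℂ) / N ^ k * (1 / (t * z + (r : ℕ) / N + q) ^ k) =
          (J(e (r, q) | N) : ℂ) / (N * t * z + (e (r, q) : ℤ)) ^ k := by
        intro q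
        rw [he, jacobiSym.mod_left' (a₁ := q * N + (r : ℕ)) (a₂ := (r : ℕ)) (by simp),
          div_mul_div_comm, mul_one, ← mul_pow]
        congr 2
        push_cast
        field_simp
        ring
      simp only [h3] at h2
      exact h2
    have h4 := hasSum_sum (s := Finset.univ) fun r _ => h1 r
    have hs' : Summable fun p : Fin N × ℤ => (J(e p | N) : ℂ) / (N * t * z + (e p : ℤ)) ^ k :=
      e.summable_iff.2 hs
    rw [phi, ← e.tsum_eq, hs'.tsum_prod, tsum_fintype, ← h4.tsum_eq, ← tsum_mul_left]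
    refine tsum_congr fun j => ?_
    have h5 := hG N hodd hsq j
    rw [Finset.sum_range] at h5
    calc _ = cL k / N ^ k * j ^ (k - 1) * E (j * t * z) *
          ∑ r : Fin N, (J((r : ℕ) | N) : ℂ) * E ((r : ℕ) * ((j : ℤ) : ℂ) / N) := by
          rw [Finset.mul_sum]
          refine Finset.sum_congr rfl fun r _ => ?_
          rw [show (j : ℂ) * (t * z + (r : ℕ) / N) = j * t * z + (r : ℕ) * ((j : ℤ) : ℂ) / N by
            push_cast; ring, hJ.add]
          ring
      _ = _ := by rw [h5]; ring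
  refine ⟨?_, fun z hz => ⟨hS z hz, tsum_of_norm_bounded (hS z hz).hasSum (hB z),
    summ_qterm hJ _ ht hz, hF z hz⟩⟩
  refine ContinuousOn.congr ?_ hF
  refine continuousOn_const.mul fun z hz => ContinuousAt.continuousWithinAt ?_
  have hz' : 0 < z.im := hz
  have hU : IsOpen {w : ℂ | z.im / 2 < w.im} := isOpen_lt continuous_const continuous_im
  refine ContinuousOn.continuousAt (s := {w : ℂ | z.im / 2 < w.im}) ?_
    (hU.mem_nhds (by simp only [mem_ofPred_eq]; linarith))
  refine continuousOn_tsum (fun j => ?_)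
    (summ_qterm hJ (k - 1) ht (z := ((z.im / 2 : ℝ) : ℂ) * I) (by simpa using hz')) ?_
  · unfold E
    fun_prop
  · intro j w hw
    have hw' : z.im / 2 < w.im := hw
    rw [mul_assoc, norm_mul]
    refine (mul_le_of_le_one_left (norm_nonneg _) (norm_jac_le _ _)).trans ?_
    rw [norm_qterm hJ, norm_qterm hJ]
    simp only [mul_im, ofReal_re, I_im, mul_one, ofReal_im, I_re, mul_zero, add_zero]
    gcongr

end Pool.Agent.MP_5f72fe_nt.H59
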