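import Pool.Agent.MP_5f72fe_nt.H3.SpecC

/-! Unfolding: a finite measure on the upper half plane against which sums over integer vectors
unfold to the strip. -/

namespace Pool.Agent.MP_5f72fe_nt.H59

open Complex Filter Topology MeasureTheory Set ModularGroup
open scoped Real MatrixGroups UpperHalfPlane ENNReal Modular

noncomputable section

/-! ### The group action and the weight -/

instance : Countable SL(2, ℤ) := by
  unfold Matrix.SpecialLinearGroup Matrix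
  infer_instance

theorem cont_smul (γ : SL(2, ℤ)) : Continuous fun τ : ℍ => γ • τ :=
  continuous_const_smul (Matrix.SpecialLinearGroup.mapGL ℝ γ : GL (Fin 2) ℝ)

theorem mp_smul (γ : SL(2, ℤ)) :
    MeasurePreserving (fun τ : ℍ => γ • τ) volume volume :=
  measurePreserving_smul (Matrix.SpecialLinearGroup.mapGL ℝ γ : GL (Fin 2) ℝ) volume

/-- the number of translates in the fundamental domain -/
def W (τ : ℍ) : ℝ≥0∞ := ∑' γ : SL(2, ℤ), (𝒟 : Set ℍ).indicator 1 (γ • τ)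

theorem W_smul (g : SL(2, ℤ)) (τ : ℍ) : W (g • τ) = W τ := by
  unfold W
  rw [← (Equiv.mulRight g).tsum_eq fun γ => (𝒟 : Set ℍ).indicator (1 : ℍ → ℝ≥0∞) (γ • τ)]
  simp [mul_smul]

theorem W_ne_zero (τ : ℍ) : W τ ≠ 0 := by
  obtain ⟨g, hg⟩ := exists_smul_mem_fd τ
  intro h
  have := ENNReal.tsum_eq_zero.1 h g
  rw [indicator_of_mem hg] at this
  simp at this

theorem W_ne_top (τ : ℍ) : W τ ≠ ⊤ := by
  obtain ⟨g, hg⟩ := exists_smul_mem_fd τ
  rw [← W_smul g]
  generalize g • τ = z at hg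
  classical
  let A : Finset SL(2, ℤ) := {1, -1, T, -T, T⁻¹, -T⁻¹, S, -S, T * S, -(T * S), T⁻¹ * S * T⁻¹,
    -(T⁻¹ * S * T⁻¹), S * T⁻¹, -(S * T⁻¹), S * T, -(S * T), T * S * T, -(T * S * T), T⁻¹ * S,
    -(T⁻¹ * S)}
  unfold W
  rw [tsum_eq_sum (s := A)]
  · refine ENNReal.sum_ne_top.2 fun γ _ => ?_
    by_cases h : γ • z ∈ 𝒟
    · rw [indicator_of_mem h]; simp
    · rw [indicator_of_notMem h]; simp
  · intro γ hγ
    by_cases h : γ • z ∈ 𝒟
    · exfalso
      apply hγ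
      have := cases_of_mem_fd_smul_mem_fd hg h
      simp only [A, Finset.mem_insert, Finset.mem_singleton]
      tauto
    · exact indicator_of_notMem h _

theorem meas_fd : MeasurableSet (𝒟 : Set ℍ) := isClosed_fd.measurableSet

theorem W_meas : Measurable W :=
  Measurable.tsum fun γ =>
    (measurable_one.indicator meas_fd).comp (cont_smul γ).measurable

/-- the weight -/
def wt (τ : ℍ) : ℝ≥0∞ := (𝒟 : Set ℍ).indicator 1 τ * (W τ)⁻¹

theorem wt_meas : Measurable wt := (measurable_one.indicator meas_fd).mul W_meas.inv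

theorem tsum_wt (τ : ℍ) : ∑' γ : SL(2, ℤ), wt (γ • τ) = 1 := by
  simp only [wt, W_smul]
  rw [ENNReal.tsum_mul_right]
  exact ENNReal.mul_inv_cancel (W_ne_zero τ) (W_ne_top τ)

theorem wt_le (τ : ℍ) : wt τ ≤ (𝒟 : Set ℍ).indicator 1 τ := by
  by_cases h : τ ∈ 𝒟
  · have h1 := tsum_wt τ
    have h2 := ENNReal.le_tsum (f := fun γ : SL(2, ℤ) => wt (γ • τ)) 1
    simp only [one_smul, h1] at h2
    simpa [h] using h2
  · simp [wt, h]

theorem wt_ne_zero {τ : ℍ} (h : τ ∈ 𝒟) : wt τ ≠ 0 := by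
  simp [wt, h, W_ne_top τ]

/-- the weighted measure on the upper half plane -/
def nu0 : Measure ℍ := (volume : Measure ℍ).withDensity wt

theorem sum_map_nu0 :
    Measure.sum (fun γ : SL(2, ℤ) => nu0.map fun τ : ℍ => γ • τ) = volume := by
  ext s hs
  rw [Measure.sum_apply _ hs]
  have hm : ∀ γ : SL(2, ℤ), Measurable fun τ : ℍ => wt (γ⁻¹ • τ) := fun γ =>
    wt_meas.comp (cont_smul γ⁻¹).measurable
  have h1 : ∀ γ : SL(2, ℤ), (nu0.map fun τ : ℍ => γ • τ) s = ∫⁻ τ in s, wt (γ⁻¹ • τ) := by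
    intro γ
    rw [Measure.map_apply (cont_smul γ).measurable hs, nu0,
      withDensity_apply _ ((cont_smul γ).measurable hs),
      ← (mp_smul γ).setLIntegral_comp_preimage hs (hm γ)]
    simp only [inv_smul_smul]
  simp only [h1]
  rw [← lintegral_tsum fun γ => (hm γ).aemeasurable]
  have h2 : ∀ τ : ℍ, ∑' γ : SL(2, ℤ), wt (γ⁻¹ • τ) = 1 := by
    intro τ
    rw [← tsum_wt τ]
    exact (Equiv.inv SL(2, ℤ)).tsum_eq fun γ => wt (γ • τ)
  simp only [h2]
  simp

/-! ### Transfer to coordinates -/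

/-- the hyperbolic density -/
def dn (z : ℂ) : ℝ≥0∞ := ENNReal.ofReal (1 / z.im ^ 2)

theorem dn_meas : Measurable dn := by
  unfold dn
  fun_prop

theorem range_coe : range ((↑) : ℍ → ℂ) = {z : ℂ | 0 < z.im} := by
  ext z
  constructor
  · rintro ⟨τ, rfl⟩
    exact τ.im_pos
  · intro hz
    exact ⟨⟨z, hz⟩, rfl⟩

theorem meas_U : MeasurableSet {z : ℂ | 0 < z.im} :=
  (isOpen_lt continuous_const continuous_im).measurableSet

theorem map_vol : (volume : Measure ℍ).map ((↑) : ℍ → ℂ) =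
    (volume.restrict {z : ℂ | 0 < z.im}).withDensity dn := by
  ext s hs
  rw [Measure.map_apply UpperHalfPlane.measurable_coe hs, UpperHalfPlane.volume_eq_lintegral,
    image_preimage_eq_inter_range, range_coe, withDensity_apply _ hs, Measure.restrict_restrict hs]
  refine lintegral_congr fun z => ?_
  unfold dn
  rw [← ENNReal.ofReal_coe_nnreal]
  simp

/-- coordinates -/
def co (p : ℝ × ℝ) : ℂ := p.1 + p.2 * I

theorem co_eq : co = measurableEquivRealProd.symm := by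
  funext p
  apply Complex.ext <;> simp [co]

theorem co_mp : MeasurePreserving co volume volume := by
  rw [co_eq]
  exact volume_preserving_equiv_real_prod.symm

theorem co_emb : MeasurableEmbedding co := by
  rw [co_eq]
  exact measurableEquivRealProd.symm.measurableEmbedding

@[simp] theorem co_re (p : ℝ × ℝ) : (co p).re = p.1 := by simp [co]

@[simp] theorem co_im (p : ℝ × ℝ) : (co p).im = p.2 := by simp [co]

/-- the strip -/
def Pc : Set ℂ := {z | z.re ∈ Ioc (0 : ℝ) 1}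

theorem meas_Pc : MeasurableSet Pc := measurable_re measurableSet_Ioc

/-- the product measure on the strip -/
def rho : Measure (ℝ × ℝ) := (volume.restrict (Ioc (0 : ℝ) 1)).prod (volume.restrict (Ioi (0 : ℝ)))

theorem rho_eq : rho = volume.restrict (co ⁻¹' (Pc ∩ {z : ℂ | 0 < z.im})) := by
  rw [rho, Measure.prod_restrict, ← Measure.volume_eq_prod]
  congr 1
  ext p
  simp [Pc]

theorem lint_strip (f : ℂ → ℝ≥0∞) :
    ∫⁻ τ : ℍ, Pc.indicator f τ = ∫⁻ p, ENNReal.ofReal (1 / p.2 ^ 2) * f (co p) ∂rho := by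
  rw [← UpperHalfPlane.measurableEmbedding_coe.lintegral_map, map_vol,
    lintegral_withDensity_eq_lintegral_mul_non_measurable _ dn_meas
      (ae_of_all _ fun z => ENNReal.ofReal_lt_top)]
  have h1 : (dn * Pc.indicator f) = Pc.indicator (fun z => dn z * f z) := by
    funext z
    by_cases h : z ∈ Pc <;> simp [h]
  rw [h1, lintegral_indicator meas_Pc, Measure.restrict_restrict meas_Pc, rho_eq,
    ← co_mp.setLIntegral_comp_preimage_emb co_emb]
  simp [dn]

theorem int_strip (f : ℂ → ℂ) :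
    ∫ τ : ℍ, Pc.indicator f τ = ∫ p, f (co p) / (p.2 : ℂ) ^ 2 ∂rho := by
  rw [← UpperHalfPlane.measurableEmbedding_coe.integral_map, map_vol,
    integral_withDensity_eq_integral_toReal_smul dn_meas
      (ae_of_all _ fun z => ENNReal.ofReal_lt_top)]
  have h1 : (fun z => (dn z).toReal • Pc.indicator f z) =
      Pc.indicator (fun z => f z / (z.im : ℂ) ^ 2) := by
    funext z
    by_cases h : z ∈ Pc
    · rw [indicator_of_mem h, indicator_of_mem h, dn, ENNReal.toReal_ofReal (by positivity)]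
      simp only [real_smul]
      push_cast
      ring
    · simp [h]
  rw [h1, integral_indicator meas_Pc, Measure.restrict_restrict meas_Pc, rho_eq,
    ← co_mp.setIntegral_preimage_emb co_emb]
  simp

/-! ### Rows -/

/-- right action on row vectors -/
def act (v : ℤ × ℤ) (γ : SL(2, ℤ)) : ℤ × ℤ :=
  (v.1 * γ 0 0 + v.2 * γ 1 0, v.1 * γ 0 1 + v.2 * γ 1 1)

theorem act_one (v : ℤ × ℤ) : act v 1 = v := by
  simp [act]

theorem act_mul (v : ℤ × ℤ) (γ δ : SL(2, ℤ)) : act v (γ * δ) = act (act v γ) δ := by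
  simp only [act, Matrix.SpecialLinearGroup.coe_mul, Matrix.mul_apply, Fin.sum_univ_two,
    Prod.mk.injEq]
  constructor <;> ring

theorem cov {h : ℤ × ℤ → ℂ → ℂ}
    (hS : ∀ (a δ : ℤ) (τ : ℂ), 0 < τ.im → h (a, δ) (-1 / τ) = h (δ, -a) τ)
    (hT : ∀ (a δ : ℤ) (τ : ℂ), 0 < τ.im → h (a, δ) (τ + 1) = h (a, δ + a) τ) (γ : SL(2, ℤ)) :
    ∀ (v : ℤ × ℤ) (τ : ℍ), h v (γ • τ : ℍ) = h (act v γ) τ := by
  have hγ : γ ∈ Subgroup.closure {S, T} := by simp [SpecialLinearGroup.SL2Z_generators]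
  induction hγ using Subgroup.closure_induction with
  | mem x hx =>
    rintro ⟨a, δ⟩ τ
    rcases hx with rfl | rfl
    · have h1 : ((S • τ : ℍ) : ℂ) = -1 / τ := by
        rw [UpperHalfPlane.modular_S_smul]
        simp [neg_div, inv_neg]
      rw [h1, hS a δ τ τ.im_pos]
      simp [act, S]
    · have h1 : ((T • τ : ℍ) : ℂ) = τ + 1 := by
        simpa using coe_T_zpow_smul_eq (z := τ) (n := 1)
      rw [h1, hT a δ τ τ.im_pos]
      simp [act, T, add_comm]
  | one => intro v τ; rw [one_smul, act_one]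
  | mul x y _ _ hx hy => intro v τ; rw [mul_smul, hx, hy, act_mul]
  | inv x _ hx =>
    intro v τ
    have := hx (act v x⁻¹) (x⁻¹ • τ)
    rw [smul_inv_smul, ← act_mul, inv_mul_cancel, act_one] at this
    exact this.symm

theorem row_T (n : ℤ) (γ : SL(2, ℤ)) (j : Fin 2) : (T ^ n * γ) 1 j = γ 1 j := by
  simp

theorem eq_T_mul {γ δ : SL(2, ℤ)} (h0 : γ 1 0 = δ 1 0) (h1 : γ 1 1 = δ 1 1) :
    ∃ n : ℤ, δ = T ^ n * γ := by
  have dγ := γ.det_coe
  have dδ := δ.det_coe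
  rw [Matrix.det_fin_two] at dγ dδ
  refine ⟨γ 0 0 * δ 0 1 - γ 0 1 * δ 0 0, ?_⟩
  ext i j
  fin_cases i <;> fin_cases j <;>
    simp [Matrix.mul_apply, Fin.sum_univ_two, coe_T_zpow]
  · linear_combination (-δ 0 0) * dγ + γ 0 0 * dδ + (γ 0 0 * δ 0 0) * h1 - (γ 0 0 * δ 0 1) * h0
  · linear_combination (-δ 0 1) * dγ + γ 0 1 * dδ + (γ 0 1 * δ 0 0) * h1 - (γ 0 1 * δ 0 1) * h0
  · exact h0.symm
  · exact h1.symm

theorem tsum_rows {h : ℤ × ℤ → ℂ → ℂ} (h0 : ∀ τ : ℂ, 0 < τ.im → h 0 τ = 0)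
    (hc : ∀ (γ : SL(2, ℤ)) (v : ℤ × ℤ) (τ : ℍ), h v (γ • τ : ℍ) = h (act v γ) τ) (τ : ℍ) :
    ∑' v, h v τ = ∑' p : ℕ × SL(2, ℤ), Pc.indicator (h (0, p.1 + 1)) (p.2 • τ : ℍ) := by
  have hmem : ∀ p : ℕ × SL(2, ℤ), Pc.indicator (h (0, p.1 + 1)) (p.2 • τ : ℍ) ≠ 0 →
      ((p.2 • τ : ℍ) : ℂ) ∈ Pc := fun p hp => mem_of_indicator_ne_zero hp
  refine tsum_eq_tsum_of_ne_zero_bij (fun p => act (0, p.1.1 + 1) p.1.2) ?_ ?_ ?_
  · rintro ⟨⟨e, γ⟩, hp⟩ ⟨⟨e', γ'⟩, hp'⟩ hpp
    have m1 := hmem _ hp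
    have m2 := hmem _ hp'
    simp only [act, zero_mul, zero_add, Prod.mk.injEq] at hpp
    have c1 := Int.isCoprime_iff_gcd_eq_one.1 (bottom_row_coprime γ)
    have c2 := Int.isCoprime_iff_gcd_eq_one.1 (bottom_row_coprime γ')
    have hg : Int.gcd (((e : ℤ) + 1) * γ 1 0) (((e : ℤ) + 1) * γ 1 1) =
        Int.gcd (((e' : ℤ) + 1) * γ' 1 0) (((e' : ℤ) + 1) * γ' 1 1) := by rw [hpp.1, hpp.2]
    rw [Int.gcd_mul_left, Int.gcd_mul_left, c1, c2] at hg
    have he : e = e' := by omega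
    subst he
    have hne : ((e : ℤ) + 1) ≠ 0 := by omega
    obtain ⟨n, rfl⟩ := eq_T_mul (mul_left_cancel₀ hne hpp.1) (mul_left_cancel₀ hne hpp.2)
    simp only [Pc, mem_ofPred_eq, UpperHalfPlane.coe_re, mul_smul, re_T_zpow_smul, mem_Ioc] at m1 m2
    have hn : n = 0 := by
      have a1 : (n : ℝ) < 1 := by linarith [m1.1, m2.2]
      have a2 : (-1 : ℝ) < n := by linarith [m1.2, m2.1]
      have a1' : n < 1 := by exact_mod_cast a1
      have a2' : -1 < n := by exact_mod_cast a2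
      omega
    subst hn
    simp
  · rintro ⟨a, δ⟩ hv
    have hv0 : (a, δ) ≠ 0 := by
      intro h1
      rw [h1] at hv
      exact hv (h0 τ τ.im_pos)
    have hg : 0 < Int.gcd a δ := by
      rw [Int.gcd_pos_iff]
      by_contra h1
      push Not at h1
      exact hv0 (Prod.ext h1.1 h1.2)
    obtain ⟨c, d, hcd, ha, hd⟩ := Int.exists_gcd_one hg
    obtain ⟨γ, -, hγ⟩ := bottom_row_surj (R := ℤ) (a := ![c, d])
      (Int.isCoprime_iff_gcd_eq_one.2 hcd)
    have g0 : γ 1 0 = c := congrFun hγ 0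
    have g1 : γ 1 1 = d := congrFun hγ 1
    obtain ⟨e, he⟩ : ∃ e : ℕ, Int.gcd a δ = e + 1 := ⟨Int.gcd a δ - 1, by omega⟩
    have hact : act (0, e + 1) (T ^ (1 - ⌈(γ • τ).re⌉) * γ) = (a, δ) := by
      simp only [act, zero_mul, zero_add, row_T, g0, g1, Prod.mk.injEq]
      rw [he] at ha hd
      push_cast at ha hd
      exact ⟨by rw [ha]; ring, by rw [hd]; ring⟩
    have hP : (((T ^ (1 - ⌈(γ • τ).re⌉) * γ) • τ : ℍ) : ℂ) ∈ Pc := by
      simp only [Pc, mem_ofPred_eq, UpperHalfPlane.coe_re, mul_smul, re_T_zpow_smul, mem_Ioc]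
      push_cast
      constructor
      · linarith [Int.ceil_lt_add_one (γ • τ).re]
      · linarith [Int.le_ceil (γ • τ).re]
    refine ⟨⟨(e, T ^ (1 - ⌈(γ • τ).re⌉) * γ), ?_⟩, hact⟩
    simp only [Function.mem_support]
    rw [indicator_of_mem hP, hc, hact]
    exact hv
  · rintro ⟨⟨e, γ⟩, hp⟩
    simp only
    rw [indicator_of_mem (hmem _ hp), hc]

/-! ### The measure -/

theorem lint_unfold {G : ℍ → ℝ≥0∞} (hG : Measurable G) :
    ∑' γ : SL(2, ℤ), ∫⁻ τ, G (γ • τ) ∂nu0 = ∫⁻ τ, G τ := by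
  conv_rhs => rw [← sum_map_nu0, lintegral_sum_measure]
  exact tsum_congr fun γ => (lintegral_map hG (cont_smul γ).measurable).symm

theorem int_unfold {G : ℍ → ℂ} (hm : StronglyMeasurable G) (hG : Integrable G) :
    ∑' γ : SL(2, ℤ), ∫ τ, G (γ • τ) ∂nu0 = ∫ τ, G τ := by
  rw [← sum_map_nu0] at hG
  conv_rhs => rw [← sum_map_nu0, integral_sum_measure hG]
  exact tsum_congr fun γ =>
    (integral_map (cont_smul γ).measurable.aemeasurable hm.aestronglyMeasurable).symm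

theorem nu0_finite : IsFiniteMeasure nu0 := by
  let Q : Set ℂ := {z | 1 / 2 ≤ z.im}
  have hQ : MeasurableSet Q := (isClosed_le continuous_const continuous_im).measurableSet
  let G : ℍ → ℝ≥0∞ := fun τ => Pc.indicator (Q.indicator 1) τ
  have hG : Measurable G :=
    ((measurable_one.indicator hQ).indicator meas_Pc).comp UpperHalfPlane.measurable_coe
  have h1 : ∀ τ : ℍ, 1 ≤ ∑' γ : SL(2, ℤ), G (γ • τ) := by
    intro τ
    obtain ⟨γ, hγ⟩ := exists_one_half_le_im_smul τ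
    refine le_trans (le_of_eq ?_) (ENNReal.le_tsum (T ^ (1 - ⌈(γ • τ).re⌉) * γ))
    have hP : (((T ^ (1 - ⌈(γ • τ).re⌉) * γ) • τ : ℍ) : ℂ) ∈ Pc := by
      simp only [Pc, mem_ofPred_eq, UpperHalfPlane.coe_re, mul_smul, re_T_zpow_smul, mem_Ioc]
      push_cast
      constructor
      · linarith [Int.ceil_lt_add_one (γ • τ).re]
      · linarith [Int.le_ceil (γ • τ).re]
    have hQ' : (((T ^ (1 - ⌈(γ • τ).re⌉) * γ) • τ : ℍ) : ℂ) ∈ Q := by
      simp only [Q, mem_ofPred_eq, UpperHalfPlane.coe_im, mul_smul, im_T_zpow_smul]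
      exact hγ
    simp only [G]
    rw [indicator_of_mem hP, indicator_of_mem hQ']
    rfl
  refine ⟨?_⟩
  calc nu0 univ = ∫⁻ _, 1 ∂nu0 := by simp
    _ ≤ ∫⁻ τ, ∑' γ : SL(2, ℤ), G (γ • τ) ∂nu0 := lintegral_mono h1
    _ = ∫⁻ τ, G τ := by
      rw [lintegral_tsum fun γ => (show Measurable fun τ : ℍ => G (γ • τ) from
        hG.comp (cont_smul γ).measurable).aemeasurable, lint_unfold hG]
    _ = ∫⁻ p, (Ici (1 / 2 : ℝ)).indicator (fun y => ENNReal.ofReal (y ^ (-2 : ℝ))) p.2 ∂rho := by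
      rw [lint_strip]
      refine lintegral_congr fun p => ?_
      by_cases h : p.2 ∈ Ici (1 / 2 : ℝ)
      · rw [indicator_of_mem h, indicator_of_mem (show co p ∈ Q by simpa [Q] using h)]
        have : 0 < p.2 := lt_of_lt_of_le (by norm_num) h
        rw [Real.rpow_neg this.le]
        simp
      · rw [indicator_of_notMem h, indicator_of_notMem (show co p ∉ Q by simpa [Q] using h)]
        simp
    _ = ∫⁻ y in Ioi (0 : ℝ), (Ici (1 / 2 : ℝ)).indicator
        (fun y => ENNReal.ofReal (y ^ (-2 : ℝ))) y := by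
      rw [rho, lintegral_prod_symm']
      · simp
      · refine Measurable.comp (g := (Ici (1 / 2 : ℝ)).indicator
          (fun y => ENNReal.ofReal (y ^ (-2 : ℝ)))) ?_ measurable_snd
        exact Measurable.indicator (by fun_prop) measurableSet_Ici
    _ ≤ ∫⁻ y in Ici (1 / 2 : ℝ), ENNReal.ofReal (y ^ (-2 : ℝ)) := by
      rw [← lintegral_indicator measurableSet_Ici]
      exact lintegral_mono' Measure.restrict_le_self le_rfl
    _ < ⊤ := by
      have := (integrableOn_Ici_iff_integrableOn_Ioi (f := fun y : ℝ => y ^ (-2 : ℝ))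
        (b := (1 / 2 : ℝ)) (μ := volume)).2
        (integrableOn_Ioi_rpow_of_lt (by norm_num) (by norm_num))
      exact this.lintegral_lt_top

theorem ident {F : ℂ → ℂ} (hF : DifferentiableOn ℂ F {τ | 0 < τ.im})
    (h0 : ∀ᵐ τ : ℍ ∂nu0, F τ = 0) (τ : ℂ) (hτ : 0 < τ.im) : F τ = 0 := by
  have hU : IsOpen {z : ℂ | 0 < z.im} := isOpen_lt continuous_const continuous_im
  let V : Set ℂ := ((↑) : ℍ → ℂ) '' 𝒟ᵒ
  have hV : IsOpen V := UpperHalfPlane.isOpenEmbedding_coe.isOpenMap _ isOpen_fdo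
  have hVU : V ⊆ {z : ℂ | 0 < z.im} := by
    rintro _ ⟨z, -, rfl⟩
    exact z.im_pos
  rw [nu0, ae_withDensity_iff wt_meas] at h0
  have h1 : ∀ᵐ z ∂((volume : Measure ℍ).map ((↑) : ℍ → ℂ)), z ∈ V → F z = 0 := by
    rw [UpperHalfPlane.measurableEmbedding_coe.ae_map_iff]
    filter_upwards [h0] with z hz hzV
    obtain ⟨z', hz', he⟩ := hzV
    obtain rfl : z' = z := UpperHalfPlane.ext he
    exact hz (wt_ne_zero (fdo_subset_fd hz'))
  rw [map_vol, ae_withDensity_iff dn_meas, ae_restrict_iff' meas_U] at h1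
  have h2 : F =ᵐ[volume.restrict V] 0 := by
    rw [EventuallyEq, ae_restrict_iff' hV.measurableSet]
    filter_upwards [h1] with z hz hzV
    refine hz (hVU hzV) ?_ hzV
    have : 0 < z.im := hVU hzV
    rw [dn, Ne, ENNReal.ofReal_eq_zero, not_le]
    positivity
  have h3 := Measure.eqOn_open_of_ae_eq h2 hV (hF.continuousOn.mono hVU) continuousOn_const
  have h4 : (2 * I : ℂ) ∈ V := by
    simp only [V, coe_fdo, mem_ofPred_eq]
    norm_num
  have h5 : IsPreconnected {z : ℂ | 0 < z.im} := (convex_halfSpace_im_gt 0).isPreconnected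
  exact (hF.analyticOnNhd hU).eqOn_zero_of_preconnected_of_eventuallyEq_zero h5 (hVU h4)
    (h3.eventuallyEq_of_mem (hV.mem_nhds h4)) hτ

theorem rowUNF : H3.RowUNF := by
  refine ⟨nu0.map ((↑) : ℍ → ℂ), ?_, ?_, ?_, ?_⟩
  · have := nu0_finite
    infer_instance
  · rw [UpperHalfPlane.measurableEmbedding_coe.ae_map_iff]
    exact ae_of_all _ fun τ => τ.im_pos
  · intro F hF h0
    rw [UpperHalfPlane.measurableEmbedding_coe.ae_map_iff] at h0
    exact ident hF h0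
  intro h h0 hS hT hc hfin
  rw [UpperHalfPlane.measurableEmbedding_coe.integrable_map_iff,
    UpperHalfPlane.measurableEmbedding_coe.integral_map]
  let G : ℕ → ℍ → ℂ := fun e τ => Pc.indicator (h (0, e + 1)) τ
  have hsum : ∀ τ : ℍ, ∑' v, h v τ = ∑' p : ℕ × SL(2, ℤ), G p.1 (p.2 • τ) :=
    tsum_rows h0 (cov hS hT)
  have hGm : ∀ e, Measurable (G e) := by
    intro e
    have h1 : Continuous fun τ : ℍ => h (0, e + 1) τ :=
      (hc e).comp_continuous UpperHalfPlane.continuous_coe fun τ => τ.im_pos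
    exact h1.measurable.indicator (UpperHalfPlane.measurable_coe meas_Pc)
  have hGm' : ∀ p : ℕ × SL(2, ℤ), Measurable fun τ : ℍ => G p.1 (p.2 • τ) := fun p =>
    (hGm p.1).comp (cont_smul p.2).measurable
  let k : ℕ → ℝ × ℝ → ℂ := fun e p => h (0, e + 1) (co p) / (p.2 : ℂ) ^ 2
  have hkm : ∀ e, AEStronglyMeasurable (k e) rho := by
    intro e
    rw [rho, Measure.prod_restrict]
    refine ContinuousOn.aestronglyMeasurable ?_ (measurableSet_Ioc.prod measurableSet_Ioi)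
    refine ContinuousOn.div ((hc e).comp (by unfold co; fun_prop) ?_) (by fun_prop) ?_
    · intro p hp
      simpa using hp.2
    · intro p hp
      have : p.2 ≠ 0 := ne_of_gt hp.2
      simpa using this
  have hkn : ∀ e p, ‖k e p‖ₑ = ENNReal.ofReal (‖h (0, e + 1) (co p)‖ / p.2 ^ 2) := by
    intro e p
    rw [← ofReal_norm]
    simp [k]
  have hL : ∀ e, ∫⁻ τ, ‖G e τ‖ₑ = ∫⁻ p, ‖k e p‖ₑ ∂rho := by
    intro e
    have h1 : ∀ τ : ℍ, ‖G e τ‖ₑ = Pc.indicator (fun z => ‖h (0, e + 1) z‖ₑ) τ := fun τ =>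
      enorm_indicator_eq_indicator_enorm _ _
    simp only [h1]
    rw [lint_strip]
    refine lintegral_congr fun p => ?_
    rw [hkn, ← ofReal_norm, ← ENNReal.ofReal_mul (by positivity)]
    congr 1
    ring
  have hL2 : ∀ e, ∫⁻ p, ‖k e p‖ₑ ∂rho = ∫⁻ y in Ioi (0 : ℝ), ∫⁻ x in Ioc (0 : ℝ) 1,
      ENNReal.ofReal (‖h (0, e + 1) (x + y * I)‖ / y ^ 2) := by
    intro e
    have := (hkm e).enorm
    rw [rho] at this ⊢
    rw [lintegral_prod_symm _ this]
    simp only [hkn, co]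
  have htot : ∑' p : ℕ × SL(2, ℤ), ∫⁻ τ, ‖G p.1 (p.2 • τ)‖ₑ ∂nu0 ≠ ⊤ := by
    rw [ENNReal.tsum_prod']
    have h1 : ∀ e, ∑' γ : SL(2, ℤ), ∫⁻ τ, ‖G e (γ • τ)‖ₑ ∂nu0 = ∫⁻ τ, ‖G e τ‖ₑ := fun e =>
      lint_unfold (G := fun τ => ‖G e τ‖ₑ) (hGm e).enorm
    simp only [h1, hL, hL2]
    exact hfin
  have hfe : ∀ e, ∫⁻ p, ‖k e p‖ₑ ∂rho < ⊤ := by
    intro e
    rw [hL2]
    exact lt_top_iff_ne_top.2 (ENNReal.ne_top_of_tsum_ne_top hfin e)
  simp only [Function.comp_def, hsum]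
  constructor
  · refine ⟨(Measurable.tsum hGm').aestronglyMeasurable, ?_⟩
    calc ∫⁻ τ, ‖∑' p : ℕ × SL(2, ℤ), G p.1 (p.2 • τ)‖ₑ ∂nu0
        ≤ ∫⁻ τ, ∑' p : ℕ × SL(2, ℤ), ‖G p.1 (p.2 • τ)‖ₑ ∂nu0 :=
          lintegral_mono fun τ => enorm_tsum_le_tsum_enorm
      _ = ∑' p : ℕ × SL(2, ℤ), ∫⁻ τ, ‖G p.1 (p.2 • τ)‖ₑ ∂nu0 :=
          lintegral_tsum fun p => (hGm' p).enorm.aemeasurable
      _ < ⊤ := lt_top_iff_ne_top.2 htot
  · rw [integral_tsum (fun p => (hGm' p).aestronglyMeasurable) htot]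
    have hs : Summable fun p : ℕ × SL(2, ℤ) => ∫ τ, G p.1 (p.2 • τ) ∂nu0 :=
      (ENNReal.summable_toReal htot).of_norm_bounded fun p => by
        simpa only [ofReal_norm] using norm_integral_le_lintegral_norm
          (μ := nu0) fun τ : ℍ => G p.1 (p.2 • τ)
    rw [hs.tsum_prod]
    refine tsum_congr fun e => ?_
    have hi : Integrable (G e) := ⟨(hGm e).aestronglyMeasurable, by
      rw [hasFiniteIntegral_iff_enorm, hL]; exact hfe e⟩
    have hik : Integrable (k e) rho := ⟨hkm e, hfe e⟩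
    rw [int_unfold (hGm e).stronglyMeasurable hi, int_strip]
    rw [rho] at hik ⊢
    rw [integral_prod_symm _ hik]
    refine integral_congr_ae (ae_of_all _ fun y => ?_)
    simp only [k, co]
    rw [integral_div, intervalIntegral.integral_of_le zero_le_one]

end

end Pool.Agent.MP_5f72fe_nt.H59
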