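import Pool.Agent.MP_5f72fe_nt.H25.SpecD
import Pool.Agent.MP_5f72fe_nt.H83.V3

/-! The Fricke transform of the part `1` modulo `3` of a form of the plus space. -/

namespace Pool.Agent.MP_5f72fe_nt.H59

open Complex Pool.Agent.MP_5f72fe_nt.H3 Pool.Agent.MP_5f72fe_nt.H83 Pool.Agent.MP_5f72fe_nt.H25

theorem third1 (J : RowJH) (n : ℕ) :
    (1 + E (-1 / 3) * E (n * (4 / 3 : ℝ) / 4) + E (1 / 3) * E (n * (-4 / 3 : ℝ) / 4) =
      if n % 3 = 1 then 3 else 0) ∧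
    E (1 / 3) * E (n * (4 / 3 : ℝ) / 4) - E (-1 / 3) * E (n * (-4 / 3 : ℝ) / 4) =
      I * (√3 : ℝ) * chi3 (n + 1) := by
  have hi : ∀ (m : ℤ) (x : ℂ), E (x + m) = E x := fun m x => by rw [J.add, J.int, mul_one]
  constructor
  · have h := (third J (n + 2)).1
    have e1 : E (((n + 2 : ℕ) : ℂ) * (4 / 3 : ℝ) / 4) = E (-1 / 3) * E (n * (4 / 3 : ℝ) / 4) := by
      rw [← J.add, ← hi 1 (-1 / 3 + _)]
      congr 1; push_cast; ring
    have e2 : E (((n + 2 : ℕ) : ℂ) * (-4 / 3 : ℝ) / 4) = E (1 / 3) * E (n * (-4 / 3 : ℝ) / 4) := by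
      rw [← J.add, ← hi (-1) (1 / 3 + _)]
      congr 1; push_cast; ring
    rw [e1, e2] at h
    rw [h]
    exact if_congr (by omega) rfl rfl
  · have h := (third J (n + 1)).2
    have e1 : E (((n + 1 : ℕ) : ℂ) * (4 / 3 : ℝ) / 4) = E (1 / 3) * E (n * (4 / 3 : ℝ) / 4) := by
      rw [← J.add]
      congr 1; push_cast; ring
    have e2 : E (((n + 1 : ℕ) : ℂ) * (-4 / 3 : ℝ) / 4) = E (-1 / 3) * E (n * (-4 / 3 : ℝ) / 4) := by
      rw [← J.add]
      congr 1; push_cast; ring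
    rw [e1, e2, Nat.cast_add, Nat.cast_one] at h
    exact h

theorem avg1 (S : RowSER) (J : RowJH) {d : ℕ → ℂ} (hd : Sm d) {x : ℂ} (hx : 0 < x.im) :
    3 * ser 12 (cls1 d) (3 * x) = ser 4 d x + E (-1 / 3) * ser 4 d (x + (4 / 3 : ℝ)) +
      E (1 / 3) * ser 4 d (x + (-4 / 3 : ℝ)) := by
  have h1 := ((hs S hd hx).add ((hs' S J hd hx (4 / 3)).mul_left (E (-1 / 3)))).add
    ((hs' S J hd hx (-4 / 3)).mul_left (E (1 / 3)))
  rw [← h1.tsum_eq, ser, ← tsum_mul_left]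
  refine tsum_congr fun n => ?_
  have := (third1 J n).1
  rw [show (n : ℂ) * (3 * x) / (12 : ℕ) = n * x / (4 : ℕ) by push_cast; ring]
  unfold cls1
  split_ifs at this ⊢ with h
  · linear_combination (-(d n * E (n * x / (4 : ℕ)))) * this
  · linear_combination (-(d n * E (n * x / (4 : ℕ)))) * this

theorem serD1 (S : RowSER) (J : RowJH) (k : ℕ) {d : ℕ → ℂ} (hd : Sm d) {τ : ℂ} (hτ : 0 < τ.im) :
    I * (√3 : ℝ) * ser 4 (flatP k d) τ =
      I ^ k * (I * (√3 : ℝ) * 3 ^ (2 * k) * ser 4 d (9 * τ) +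
        3 ^ k * (E (1 / 3) * ser 4 d (τ + (4 / 3 : ℝ)) -
          E (-1 / 3) * ser 4 d (τ + (-4 / 3 : ℝ)))) := by
  have h1 := hs S (sm_up (t := 9) (by norm_num) hd) hτ
  rw [ser_up _ _ (by norm_num), Nat.cast_ofNat (n := 9)] at h1
  have h2 := ((h1.mul_left (I * (√3 : ℝ) * 3 ^ (2 * k))).add
    ((((hs' S J hd hτ (4 / 3)).mul_left (E (1 / 3))).sub
      ((hs' S J hd hτ (-4 / 3)).mul_left (E (-1 / 3)))).mul_left (3 ^ k))).mul_left (I ^ k)
  rw [← h2.tsum_eq, ser, ← tsum_mul_left]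
  refine tsum_congr fun n => ?_
  have := (third1 J n).2
  unfold flatP
  linear_combination (-(I ^ k * 3 ^ k * d n * E (n * τ / (4 : ℕ)))) * this

theorem rowF9P : OfF9P := by
  intro S J k c hk ⟨hc, hsup, hl⟩ τ hτ μ hμ
  have hl' : ∀ τ : ℂ, 0 < τ.im → ∀ μ < 2, ser 4 (par μ c) (-1 / τ) =
      I ^ (k + k % 2) * Jh τ ^ (2 * k + 1) *
        ((ser 4 (par 0 c) τ + (-1) ^ μ * ser 4 (par 1 c) τ) / (√2 : ℝ)) := by
    intro τ hτ μ hμ
    simpa using hl τ hτ μ hμ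
  simp only [hk, mul_zero, add_zero] at hsup hl'
  have hC : (I ^ k) ^ 2 = 1 := by
    obtain ⟨m, rfl⟩ : ∃ m, k = 2 * m := ⟨k / 2, by omega⟩
    rw [← pow_mul, show 2 * m * 2 = 4 * m by ring, pow_mul, I_pow_four, one_pow]
  have hneg : (-I) ^ (k + 1) = -I ^ (k + 1) := Odd.neg_pow (Nat.odd_iff.2 (by omega)) _
  have t0 : ∀ x, ser 4 (par 0 c) (x + 1) = ser 4 (par 0 c) x := fun x => by
    rw [shift J (e := 0), pow_zero, one_mul]
    intro n hn
    unfold par at hn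
    split_ifs at hn with h
    · have := hsup _ hn
      omega
    · exact absurd rfl hn
  have t1 : ∀ x, ser 4 (par 1 c) (x + 1) = I * ser 4 (par 1 c) x := fun x => by
    rw [shift J (e := 1), pow_one]
    intro n hn
    unfold par at hn
    split_ifs at hn with h
    · have := hsup _ hn
      omega
    · exact absurd rfl hn
  have l0 := fun τ hτ => hl' τ hτ 0 (by norm_num)
  have l1 := fun τ hτ => hl' τ hτ 1 (by norm_num)
  simp only [pow_zero, one_mul] at l0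
  simp only [pow_one, neg_one_mul, ← sub_eq_add_neg] at l1
  have kP := keyP J hC l0 l1 t0 t1 hτ
  have kM := keyM J hC l0 l1 t0 t1 hτ
  have h9 : 0 < (9 * τ).im := by simpa using hτ
  have j9 : Jh (9 * τ) = 3 * Jh τ := by
    have := J.scale 9 τ (by norm_num)
    rw [show (9 : ℝ) = 3 ^ 2 by norm_num, Real.sqrt_sq (by norm_num)] at this
    push_cast at this
    rw [← this]
    norm_num
  have pD : ∀ ν, par ν (flatP k c) = flatP k (par ν c) := by
    intro ν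
    funext n
    unfold flatP
    rw [← par_up ν c (by norm_num)]
    unfold par
    split_ifs <;> simp
  have pV : par μ (cls1 c) = cls1 (par μ c) := by
    funext n
    simp only [par, cls1]
    split_ifs <;> rfl
  have hτ0 : τ ≠ 0 := fun e => by simp [e] at hτ
  have av := avg1 S J (sm_par μ hc) (im_inv h9)
  rw [show 3 * (-1 / (9 * τ)) = -1 / ((3 : ℕ) * τ) by push_cast; field_simp; norm_num] at av
  have d0 := serD1 S J k (sm_par 0 hc) hτ
  have d1 := serD1 S J k (sm_par 1 hc) hτ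
  have r3 : ((√3 : ℝ) : ℂ) ≠ 0 := fun e => by have := s3; rw [e] at this; norm_num at this
  rw [pD, pD, pV]
  refine mul_left_cancel₀ (mul_ne_zero (mul_ne_zero I_ne_zero r3) three_ne_zero) ?_
  rw [mul_assoc, av, hl' _ h9 μ hμ, j9, mul_pow]
  generalize ser 4 (flatP k (par 0 c)) τ = D0 at d0 ⊢
  generalize ser 4 (flatP k (par 1 c)) τ = D1 at d1 ⊢
  have h3 := s3
  interval_cases μ
  · rw [kP.1, kM.1, hneg]
    linear_combination (-3 * Jh τ ^ (2 * k + 1) / (√2 : ℝ)) * (d0 + d1) +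
      (3 ^ k * I ^ k * Jh τ ^ (2 * k + 1) / (√2 : ℝ) *
        (E (-1 / 3) * (ser 4 (par 0 c) (τ + (-4 / 3 : ℝ)) + ser 4 (par 1 c) (τ + (-4 / 3 : ℝ))) -
          E (1 / 3) * (ser 4 (par 0 c) (τ + (4 / 3 : ℝ)) + ser 4 (par 1 c) (τ + (4 / 3 : ℝ))))) *
        (I ^ 2 * h3 + 3 * I_sq)
  · rw [kP.2, kM.2, hneg]
    linear_combination (-3 * Jh τ ^ (2 * k + 1) / (√2 : ℝ)) * (d0 - d1) +
      (3 ^ k * I ^ k * Jh τ ^ (2 * k + 1) / (√2 : ℝ) *
        (E (-1 / 3) * (ser 4 (par 0 c) (τ + (-4 / 3 : ℝ)) - ser 4 (par 1 c) (τ + (-4 / 3 : ℝ))) -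
          E (1 / 3) * (ser 4 (par 0 c) (τ + (4 / 3 : ℝ)) - ser 4 (par 1 c) (τ + (4 / 3 : ℝ))))) *
        (I ^ 2 * h3 + 3 * I_sq)

end Pool.Agent.MP_5f72fe_nt.H59
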